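import Mathlib
import Pool.Agent.helper92.RC.Spec

set_option autoImplicit false

namespace Pool.Agent.helper92.RC

open scoped commutatorElement

universe u

private theorem CYC_cyc (H : Type u) [Group H] [IsFreeGroup H] (hc : ∀ x y : H, x * y = y * x) :
    ∃ v : H, ∀ x : H, ∃ n : ℤ, x = v ^ n := by
  classical
  have hsub : Subsingleton (IsFreeGroup.Generators H) := by
    refine ⟨fun a b => ?_⟩
    by_contra hab
    let φ : H →* Equiv.Perm (Fin 3) :=
      IsFreeGroup.lift fun g => if g = a then Equiv.swap 0 1 else Equiv.swap 1 2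
    have h1 : φ (IsFreeGroup.of a) = Equiv.swap 0 1 := by
      change IsFreeGroup.lift _ _ = _
      rw [IsFreeGroup.lift_of, if_pos rfl]
    have h2 : φ (IsFreeGroup.of b) = Equiv.swap 1 2 := by
      change IsFreeGroup.lift _ _ = _
      rw [IsFreeGroup.lift_of, if_neg (Ne.symm hab)]
    have h3 := congrArg φ (hc (IsFreeGroup.of a) (IsFreeGroup.of b))
    rw [map_mul, map_mul, h1, h2] at h3
    revert h3
    decide
  rcases isEmpty_or_nonempty (IsFreeGroup.Generators H) with hE | ⟨⟨g⟩⟩
  · refine ⟨1, fun x => ⟨0, ?_⟩⟩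
    have : (IsFreeGroup.mulEquiv H).symm x = 1 := Subsingleton.elim _ _
    rw [MulEquiv.symm_apply_eq, map_one] at this
    rw [this, zpow_zero]
  · refine ⟨IsFreeGroup.mulEquiv H (FreeGroup.of g), fun x => ?_⟩
    have h1 : (IsFreeGroup.mulEquiv H).symm x ∈ Subgroup.closure (Set.range (FreeGroup.of (α := IsFreeGroup.Generators H))) := by
      rw [FreeGroup.closure_range_of]
      exact Subgroup.mem_top _
    have h2 : Set.range (FreeGroup.of (α := IsFreeGroup.Generators H)) = {FreeGroup.of g} := by
      ext y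
      constructor
      · rintro ⟨g', rfl⟩
        rw [Subsingleton.elim g' g]
        exact Set.mem_singleton _
      · rintro rfl
        exact ⟨g, rfl⟩
    rw [h2, Subgroup.mem_closure_singleton] at h1
    obtain ⟨n, hn⟩ := h1
    refine ⟨n, ?_⟩
    rw [← map_zpow, hn, MulEquiv.apply_symm_apply]

theorem CYC : CYC_stmt.{u} := by
  intro F _ _ x y hxy
  let S : Set F := {x, y}
  have h1 : Subgroup.closure S ≤ Subgroup.centralizer S := by
    rw [Subgroup.closure_le]
    intro s hs
    rw [SetLike.mem_coe, Subgroup.mem_centralizer_iff]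
    intro t ht
    simp only [S, Set.mem_insert_iff, Set.mem_singleton_iff] at hs ht
    rcases hs with rfl | rfl <;> rcases ht with rfl | rfl <;> first | rfl | exact hxy | exact hxy.symm
  have h2 : Subgroup.closure S ≤ Subgroup.centralizer (Subgroup.closure S : Set F) := by
    rw [Subgroup.closure_le]
    intro s hs
    rw [SetLike.mem_coe, Subgroup.mem_centralizer_iff]
    intro t ht
    exact (Subgroup.mem_centralizer_iff.1 (h1 ht) s hs).symm
  have hfree : IsFreeGroup (Subgroup.closure S) := inferInstance
  obtain ⟨v, hv⟩ := CYC_cyc (Subgroup.closure S) (fun p q => by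
    apply Subtype.ext
    exact Subgroup.mem_centralizer_iff.1 (h2 q.2) p.1 p.2)
  obtain ⟨s, hs⟩ := hv ⟨x, Subgroup.subset_closure (by simp [S])⟩
  obtain ⟨t, ht⟩ := hv ⟨y, Subgroup.subset_closure (by simp [S])⟩
  refine ⟨v, s, t, ?_, ?_⟩
  · have := congrArg Subtype.val hs
    simpa using this
  · have := congrArg Subtype.val ht
    simpa using this

end Pool.Agent.helper92.RC
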